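import Mathlib

set_option autoImplicit false

namespace Pool.Agent.Results.MP_e47ea7_co.PathOnThree

open SimpleGraph

/-- `f` is a rainbow copy of `H` in the edge set `S` coloured by `χ` -/
def RainbowCopy {W : Type} {n : ℕ} (H : SimpleGraph W) (S : Set (Sym2 (Fin n)))
    (χ : Sym2 (Fin n) → ℕ) (f : W → Fin n) : Prop :=
  Function.Injective f ∧ (∀ e ∈ H.edgeSet, e.map f ∈ S) ∧
    Set.InjOn (fun e => χ (e.map f)) H.edgeSet

/-- `(G, χ)` is weakly `H`-rainbow saturated in `K_n`: the missing edges can be listed so that,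
for every colouring `ψ` extending `χ` with pairwise distinct colours on the missing edges, each
added edge lies in a rainbow copy of `H` in the graph obtained at that step -/
def WeaklySat {W : Type} {n : ℕ} (H : SimpleGraph W) (G : SimpleGraph (Fin n))
    (χ : Sym2 (Fin n) → ℕ) : Prop :=
  ∃ l : List (Sym2 (Fin n)), l.Nodup ∧ (∀ e, e ∈ l ↔ e ∈ Gᶜ.edgeSet) ∧
    ∀ ψ : Sym2 (Fin n) → ℕ, (∀ e ∈ G.edgeSet, ψ e = χ e) → Set.InjOn ψ Gᶜ.edgeSet →
      ∀ i : Fin l.length, ∃ f : W → Fin n,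
        RainbowCopy H (G.edgeSet ∪ {e | e ∈ l.take (i + 1)}) ψ f ∧ ∃ e ∈ H.edgeSet, e.map f = l.get i

/-- the weak rainbow saturation number -/
noncomputable def rwsat {W : Type} (n : ℕ) (H : SimpleGraph W) : ℕ∞ :=
  ⨅ (G : SimpleGraph (Fin n)) (χ : Sym2 (Fin n) → ℕ) (_ : WeaklySat H G χ), G.edgeSet.encard

/-- the same minimum over rainbow `H`-free starting graphs -/
noncomputable def rwsatStar {W : Type} (n : ℕ) (H : SimpleGraph W) : ℕ∞ :=
  ⨅ (G : SimpleGraph (Fin n)) (χ : Sym2 (Fin n) → ℕ) (_ : WeaklySat H G χ)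
    (_ : ¬ ∃ f : W → Fin n, RainbowCopy H G.edgeSet χ f), G.edgeSet.encard

theorem eP : (pathGraph 3).edgeSet = {s(0, 1), s(1, 2)} := by
  ext e
  induction e using Sym2.ind with
  | _ a b => fin_cases a <;> fin_cases b <;> simp [pathGraph_adj]

theorem copy_iff (S : Set (Sym2 (Fin 3))) (χ : Sym2 (Fin 3) → ℕ) (f : Fin 3 → Fin 3) :
    RainbowCopy (pathGraph 3) S χ f ↔ Function.Injective f ∧ s(f 0, f 1) ∈ S ∧ s(f 1, f 2) ∈ S ∧
      χ s(f 0, f 1) ≠ χ s(f 1, f 2) := by
  unfold RainbowCopy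
  rw [eP, Set.injOn_pair]
  have : (s(0, 1) : Sym2 (Fin 3)) ≠ s(1, 2) := by decide
  simp [and_assoc, this]

theorem upper : rwsat 3 (pathGraph 3) ≤ 2 := by
  let χ : Sym2 (Fin 3) → ℕ := fun e => if e = s(0, 1) then 0 else 1
  have hc : (pathGraph 3)ᶜ.edgeSet = {s(0, 2)} := by
    ext e
    induction e using Sym2.ind with
    | _ a b => fin_cases a <;> fin_cases b <;> simp [pathGraph_adj]
  have h : WeaklySat (pathGraph 3) (pathGraph 3) χ := by
    refine ⟨[s(0, 2)], by simp, by simp [hc], fun ψ h1 _ i => ?_⟩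
    have a := h1 s(0, 1) (by simp [eP])
    have b := h1 s(1, 2) (by simp [eP])
    simp only [χ] at a b
    rw [if_pos trivial] at a
    rw [if_neg (by decide)] at b
    fin_cases i
    by_cases hψ : ψ s(0, 2) = 0
    · refine ⟨![0, 2, 1], (copy_iff _ _ _).2 ⟨by decide, by simp, by simp [eP], ?_⟩, s(0, 1),
        by simp [eP], by simp⟩
      have : (s(2, 1) : Sym2 (Fin 3)) = s(1, 2) := Sym2.eq_swap
      simp [hψ, this, b]
    · refine ⟨![2, 0, 1], (copy_iff _ _ _).2 ⟨by decide, by simp, by simp [eP], ?_⟩, s(0, 1),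
        by simp [eP], by simp⟩
      have : (s(2, 0) : Sym2 (Fin 3)) = s(0, 2) := Sym2.eq_swap
      simp [hψ, this, a]
  refine iInf_le_of_le (pathGraph 3) (iInf_le_of_le χ (iInf_le_of_le h ?_))
  rw [eP, Set.encard_pair (by decide)]

theorem lower : 3 ≤ rwsatStar 3 (pathGraph 3) := by
  refine le_iInf fun G => le_iInf fun χ => le_iInf fun h => le_iInf fun hfree => ?_
  obtain ⟨l, hl, hmem, h⟩ := h
  have mono : ∀ e ∈ G.edgeSet, ∀ e' ∈ G.edgeSet, χ e = χ e' := by
    have key : ∀ a b c d : Fin 3, a ≠ b → c ≠ d → s(a, b) = s(c, d) ∨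
        ∃ f : Fin 3 → Fin 3, Function.Injective f ∧ s(f 0, f 1) = s(a, b) ∧
          s(f 1, f 2) = s(c, d) := by decide
    intro e he e' he'
    induction e using Sym2.ind with
    | _ a b =>
    induction e' using Sym2.ind with
    | _ c d =>
    rcases key a b c d (G.ne_of_adj he) (G.ne_of_adj he') with h | ⟨f, h1, h2, h3⟩
    · rw [h]
    · by_contra hne
      exact hfree ⟨f, (copy_iff _ _ _).2 ⟨h1, h2 ▸ he, h3 ▸ he', by rwa [h2, h3]⟩⟩
  cases l with
  | nil =>
    have : G = ⊤ := by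
      have : Gᶜ = ⊥ := by
        rw [← edgeSet_eq_empty]
        ext e
        simpa using (hmem e).symm
      simpa using congrArg (·ᶜ) this
    subst this
    have : (⊤ : SimpleGraph (Fin 3)).edgeSet = ↑({s(0, 1), s(1, 2), s(0, 2)} : Finset (Sym2 (Fin 3))) := by
      ext e
      induction e using Sym2.ind with
      | _ a b => fin_cases a <;> fin_cases b <;> simp
    rw [this, Set.encard_coe_eq_coe_finsetCard]
    decide
  | cons e₀ l =>
    exfalso
    classical
    obtain ⟨c, hc⟩ : ∃ c, ∀ e ∈ G.edgeSet, χ e = c := by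
      by_cases hG : G.edgeSet.Nonempty
      · obtain ⟨e, he⟩ := hG
        exact ⟨χ e, fun e' he' => mono e' he' e he⟩
      · exact ⟨0, fun e he => absurd ⟨e, he⟩ hG⟩
    have dis : ∀ e ∈ Gᶜ.edgeSet, e ∉ G.edgeSet := by
      intro e he
      induction e using Sym2.ind with
      | _ a b => exact he.2
    let ψ : Sym2 (Fin 3) → ℕ := fun e => if e ∈ G.edgeSet then c else c + (e₀ :: l).idxOf e
    obtain ⟨f, hf, -⟩ := h ψ (fun e he => by simp [ψ, he, hc e he]) (by
      intro e he e' he' h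
      simp only [ψ, if_neg (dis e he), if_neg (dis e' he'), add_right_inj] at h
      exact (List.idxOf_inj ((hmem e).2 he)).1 h) ⟨0, by simp⟩
    obtain ⟨-, h1, h2, h3⟩ := (copy_iff _ _ _).1 hf
    have : ∀ e ∈ G.edgeSet ∪ {e | e ∈ (e₀ :: l).take (0 + 1)}, ψ e = c := by
      rintro e (he | he)
      · simp [ψ, he]
      · simp at he
        simp [ψ, he]
    exact h3 ((this _ h1).trans (this _ h2).symm)

/-- For the path with two edges and `n = 3` the two weak rainbow saturation numbers differ. -/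
theorem result :
    ∃ (W : Type) (_ : Fintype W) (H : SimpleGraph W) (n : ℕ), H.edgeSet.Nonempty ∧ 1 ≤ n ∧
      rwsatStar n H ≠ rwsat n H := by
  refine ⟨Fin 3, inferInstance, pathGraph 3, 3, ⟨s(0, 1), by simp [eP]⟩, by norm_num, fun h => ?_⟩
  have := lower.trans (h.le.trans upper)
  revert this
  decide

end Pool.Agent.Results.MP_e47ea7_co.PathOnThree
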